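import Pool.Agent.Helper69.MWF.Stmts
import Pool.Agent.Helper69.MWF.BasicC

/-!
# MP_80e84b_lc (S14965): module UC (uniform codes, composition of functionals)
-/

set_option autoImplicit false

open Nat.Partrec (Code)

namespace Pool.Agent.Helper67.MWF

open Pool.Agent.Helper95.MW Pool.Agent.Helper69.MWF

theorem st_UC : ST_UC := by
  intro α _ ρ S hρ hS
  -- the test
  have hG : Primrec₂ (fun (v m : ℕ) => (Option.casesOn (Encodable.decode (α := α) m) false
      (fun T => decide (S T ≤ (dl v.unpair.2).length) &&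
        ρ (v.unpair.1, T, tk (dl v.unpair.2) (S T))) : Bool)) := by
    refine Primrec.option_casesOn (Primrec.decode.comp Primrec.snd) (Primrec.const false) ?_
    have hd : Primrec (fun q : (ℕ × ℕ) × α => dl q.1.1.unpair.2) :=
      primrec_dl.comp (Primrec.snd.comp (Primrec.unpair.comp (Primrec.fst.comp Primrec.fst)))
    have hST : Primrec (fun q : (ℕ × ℕ) × α => S q.2) := hS.comp Primrec.snd
    refine Primrec.and.comp ?_ ?_
    · exact (PrimrecRel.decide Primrec.nat_le).comp hST (Primrec.list_length.comp hd)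
    · refine hρ.comp (Primrec.pair ?_ (Primrec.pair Primrec.snd ?_))
      · exact Primrec.fst.comp (Primrec.unpair.comp (Primrec.fst.comp Primrec.fst))
      · exact primrec_tk.comp hd hST
  have h1 : Nat.Partrec (fun v : ℕ => Nat.rfind (fun m => Part.some
      ((Option.casesOn (Encodable.decode (α := α) m) false
      (fun T => decide (S T ≤ (dl v.unpair.2).length) &&
        ρ (v.unpair.1, T, tk (dl v.unpair.2) (S T))) : Bool)))) := by
    refine Partrec.nat_iff.1 ?_
    exact Partrec.rfind hG.to_comp.partrec₂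
  obtain ⟨c, hc⟩ := Code.exists_code.1 h1
  have hdom : ∀ v, (c.eval v).Dom ↔ ∃ T : α, S T ≤ (dl v.unpair.2).length ∧
      ρ (v.unpair.1, T, tk (dl v.unpair.2) (S T)) = true := by
    intro v
    rw [congrFun hc v]
    refine Nat.rfind_dom.trans ?_
    constructor
    · rintro ⟨m, hm, -⟩
      have h2 := (Part.mem_some_iff.1 hm).symm
      cases h : Encodable.decode (α := α) m with
      | none =>
        rw [h] at h2
        exact absurd h2 Bool.false_ne_true
      | some T =>
        rw [h] at h2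
        simp only [Bool.and_eq_true, decide_eq_true_eq] at h2
        exact ⟨T, h2⟩
    · rintro ⟨T, hT1, hT2⟩
      refine ⟨Encodable.encode T, ?_, fun _ => trivial⟩
      rw [Part.mem_some_iff, Encodable.encodek]
      simp only [hT1, hT2, decide_true, Bool.and_self]
  refine ⟨c, fun w => ?_⟩
  ext n
  constructor
  · rintro ⟨T, hT⟩
    refine ⟨S T, (hdom _).2 ⟨T, ?_⟩⟩
    rw [Nat.unpair_pair, dl_ec, tk_ini le_rfl, ini_length]
    exact ⟨le_rfl, hT⟩
  · rintro ⟨s, hs⟩
    obtain ⟨T, hT1, hT2⟩ := (hdom _).1 hs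
    rw [Nat.unpair_pair, dl_ec, ini_length] at hT1
    rw [Nat.unpair_pair, dl_ec, tk_ini hT1] at hT2
    exact ⟨T, hT2⟩

theorem st_COMP : ST_COMP := by
  intro c c'
  obtain ⟨c'', h⟩ := st_UC (List ℕ × ℕ × ℕ × ℕ)
    (fun v => ev c v.2.1.2.2.1 (Nat.pair (ec v.2.1.1) (ec v.2.2)) &&
      ev c' v.2.1.2.2.2 (Nat.pair v.1 (ec v.2.1.1))) (fun T => T.2.1)
    (by
      refine Primrec.and.comp ?_ ?_
      · refine (primrec_ev c).comp ?_ ?_
        · exact Primrec.fst.comp (Primrec.snd.comp (Primrec.snd.comp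
            (Primrec.fst.comp Primrec.snd)))
        · exact Primrec₂.natPair.comp (primrec_ec.comp (Primrec.fst.comp
            (Primrec.fst.comp Primrec.snd))) (primrec_ec.comp (Primrec.snd.comp Primrec.snd))
      · refine (primrec_ev c').comp ?_ ?_
        · exact Primrec.snd.comp (Primrec.snd.comp (Primrec.snd.comp
            (Primrec.fst.comp Primrec.snd)))
        · exact Primrec₂.natPair.comp Primrec.fst (primrec_ec.comp (Primrec.fst.comp
            (Primrec.fst.comp Primrec.snd))))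
    (Primrec.fst.comp Primrec.snd)
  refine ⟨c'', fun x y z hy hz => ?_⟩
  rw [hz, ← h x]
  ext m
  constructor
  · rintro ⟨s, hs⟩
    have h1 : ec (ini y s) ∈ WC c x := by
      rw [← hy]
      exact ini_mem_segs y s
    obtain ⟨u, hu⟩ := h1
    obtain ⟨t0, ht0⟩ := (dom_iff_ev c _).1 hu
    obtain ⟨t, ht⟩ := (dom_iff_ev c' _).1 hs
    refine ⟨(ini y s, u, t0, t), ?_⟩
    simp only [Bool.and_eq_true]
    exact ⟨ht0, ht⟩
  · rintro ⟨⟨p, u, t0, t⟩, hT⟩
    simp only [Bool.and_eq_true] at hT
    have h1 : ec p ∈ segs y := by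
      rw [hy]
      exact ⟨u, (dom_iff_ev c _).2 ⟨t0, hT.1⟩⟩
    obtain ⟨s, hs⟩ := h1
    rw [ec_inj hs] at hT
    exact ⟨s, (dom_iff_ev c' _).2 ⟨t, hT.2⟩⟩

end Pool.Agent.Helper67.MWF
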